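import Mathlib

namespace Pool.Agent.Results.MP_cd30d4_co.Nonneg

open Finset

def S (s n : ℕ) (x : ℚ) : ℚ := ∑ k ∈ range (n + 1), if s + 1 ≤ k then n.choose k * x ^ (n - k) else 0

lemma step (s n : ℕ) (x : ℚ) : S s (n + 1) x = (1 + x) * S s n x + n.choose s * x ^ (n - s) := by
  have h1 : ∑ k ∈ range (n + 1), (if s + 1 ≤ k + 1 then n.choose (k + 1) * x ^ (n - (k + 1)) else 0)
      = S s n x := by
    have := sum_range_succ' (fun k => if s + 1 ≤ k then n.choose k * x ^ (n - k) else 0) (n + 1)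
    rw [sum_range_succ] at this
    simpa [S] using this.symm
  have h2 : ∑ k ∈ range (n + 1), (if k = s then n.choose k * x ^ (n - k) else 0) =
      n.choose s * x ^ (n - s) := by
    rw [sum_ite_eq']
    split_ifs with h
    · rfl
    · rw [Nat.choose_eq_zero_of_lt (by simpa using h)]; simp
  rw [S, sum_range_succ', if_neg (by omega), add_zero, add_mul, one_mul, ← h2]
  nth_rewrite 2 [← h1]
  rw [S, mul_sum, ← sum_add_distrib, ← sum_add_distrib]
  refine sum_congr rfl fun k hk => ?_
  rw [Nat.choose_succ_succ, Nat.add_sub_add_right]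
  rcases (Nat.lt_succ_iff.mp (mem_range.mp hk)).eq_or_lt with rfl | h
  · split_ifs <;> first | omega | simp
  · rw [show n - k = n - (k + 1) + 1 by omega]
    split_ifs <;> first | omega | (push_cast; ring)

lemma even (s j : ℕ) : 0 ≤ S s (s + 2 * j) (-1 / (s + 2)) := by
  induction j with
  | zero => exact sum_nonneg fun k hk => by rw [if_neg (by simp at hk; omega)]
  | succ j ih =>
    rw [show s + 2 * (j + 1) = s + 2 * j + 1 + 1 by ring, step, step,
      show s + 2 * j + 1 - s = 2 * j + 1 by omega, Nat.add_sub_cancel_left, pow_succ]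
    have e := congrArg (Nat.cast : ℕ → ℚ) (Nat.choose_mul_succ_eq (s + 2 * j) s)
    rw [show s + 2 * j + 1 - s = 2 * j + 1 by omega] at e
    push_cast at e
    have p : 0 ≤ (-1 / (s + 2) : ℚ) ^ (2 * j) := by rw [pow_mul]; positivity
    have a : (1 + -1 / (s + 2) : ℚ) = (s + 1) / (s + 2) := by field_simp; ring
    have b : ((s + 2 * j + 1).choose s : ℚ) ≤ (s + 1) * (s + 2 * j).choose s := by
      refine le_of_mul_le_mul_right ?_ (show (0 : ℚ) < 2 * j + 1 by positivity)
      have : (0 : ℚ) ≤ (s + 2 * j).choose s * (s * j) := by positivity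
      nlinarith
    rw [a]
    have : 0 ≤ ((s + 1) * (s + 2 * j).choose s - ((s + 2 * j + 1).choose s : ℚ)) *
      (-1 / (s + 2) : ℚ) ^ (2 * j) / (s + 2) := by have := sub_nonneg.mpr b; positivity
    have q : 0 ≤ (s + 1) / (s + 2) * ((s + 1) / (s + 2) * S s (s + 2 * j) (-1 / (s + 2))) := by
      positivity
    refine (add_nonneg q this).trans_eq ?_
    ring

/-- All Taylor coefficients c_{r,n} are non-negative. -/
theorem result (r n : ℕ) (hr : 1 ≤ r) :
    0 ≤ (1 / n.factorial : ℚ) * ∑ k ∈ Icc r n, n.choose k * (-1 / (r + 1) : ℚ) ^ (n - k) := by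
  obtain ⟨s, rfl⟩ : ∃ s, r = s + 1 := ⟨r - 1, by omega⟩
  refine mul_nonneg (by positivity) ?_
  have : Icc (s + 1) n = (range (n + 1)).filter (s + 1 ≤ ·) := by ext; simp; omega
  rw [this, sum_filter, show ((s + 1 : ℕ) + 1 : ℚ) = s + 2 by push_cast; ring]
  show 0 ≤ S s n _
  rcases lt_or_ge n s with h | h
  · exact sum_nonneg fun k hk => by rw [if_neg (by simp at hk; omega)]
  obtain ⟨m, rfl⟩ := Nat.exists_eq_add_of_le h
  obtain ⟨j, rfl | rfl⟩ := m.even_or_odd'
  · exact even s j
  · rw [← add_assoc, step, Nat.add_sub_cancel_left, pow_mul,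
      show (1 + -1 / (s + 2) : ℚ) = (s + 1) / (s + 2) by field_simp; ring]
    have := even s j
    positivity

end Pool.Agent.Results.MP_cd30d4_co.Nonneg
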